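import Pool.Agent.helper97.AS.Spec

set_option autoImplicit false

namespace Pool.Agent.helper97.AS

open Pool.Agent.helper20.LB (Step F IsSq Same Bd co)

theorem TRA : TRA_stmt := by
  intro f g x y n K hx hy hgf hC
  obtain ⟨A, hA, hS, hK⟩ := hC
  refine ⟨A, ?_, ?_, hK⟩
  · intro s hs
    obtain ⟨h1, h2, h3, h4⟩ := hA s hs
    refine ⟨h1, by omega, by omega, ?_⟩
    have e1 := hgf (s.1 + s.2) (by omega) (by omega)
    have e2 := hgf (s.1 - s.2) (by omega) (by omega)
    have e3 := hgf s.1 (by omega) (by omega)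
    simp only [F] at h4 ⊢
    rw [e1, e2, e3] at h4
    exact h4
  · intro s hs t ht hst
    apply hS s hs t ht
    obtain ⟨h1, h2, h3, _⟩ := hA s hs
    obtain ⟨k1, k2, k3, _⟩ := hA t ht
    refine ⟨hst.1, ?_⟩
    intro j hj1 hj2
    have hr := hst.1
    have e := hst.2 j hj1 hj2
    rw [hgf (s.1 + j) (by omega) (by omega), hgf s.1 (by omega) (by omega),
      hgf (t.1 + j) (by omega) (by omega), hgf t.1 (by omega) (by omega)]
    exact e

end Pool.Agent.helper97.AS
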